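import Pool.Agent.Q197.VC.Linear

/-! Binary codes whose Voronoi cells are cut out by few codewords. -/

set_option autoImplicit false

open Finset Filter Pool.Agent.Q197.VC

namespace Pool.Agent.Results.MP_0430e4_lc.FewNeighbours

/-- Let the Voronoi cell of `y` in the code `C` be cut out by at most `f y` codewords, the average
of `f` being at most `F`. (1) Bound for `|C|`. (2) Its asymptotic form. (3) Codes with more than
`4 * 2^n / V(d)` words. (4) Minimal codewords of linear codes with more than `4 * 2^n / V(d)`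
words. -/
theorem result :
    (∀ (n d ρ : ℕ) (C : Finset (Fin n → Bool)) (f : (Fin n → Bool) → ℕ) (F : ℝ),
      (∀ x ∈ C, ∀ y ∈ C, x ≠ y → d ≤ hammingDist x y) → (∀ x ∈ C, FewNeighbours C x (f x)) →
      1 ≤ F → ∑ x ∈ C, (f x : ℝ) ≤ F * C.card → 0 < ρ → 2 * ρ ≤ n →
      4 * (n + 1) * F * (2 * √((ρ : ℝ) / n * (1 - ρ / n))) ^ d ≤ 1 →
      (C.card : ℝ) * (∑ i ∈ range (ρ + 1), n.choose i : ℕ) ≤ 4 * 2 ^ n) ∧
    (∀ δ x a ε : ℝ, 0 < δ → 0 < x → x < 1 / 2 → 0 ≤ a →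
      a < -(δ / 2) * Real.logb 2 (4 * x * (1 - x)) → 0 < ε →
      ∀ᶠ n : ℕ in atTop, ∀ C : Finset (Fin n → Bool),
        (∀ y ∈ C, ∀ z ∈ C, y ≠ z → δ * n ≤ hammingDist y z) →
        ∀ f : (Fin n → Bool) → ℕ, (∀ y ∈ C, FewNeighbours C y (f y)) →
        ∑ y ∈ C, (f y : ℝ) ≤ (2 : ℝ) ^ (a * n) * C.card →
        (C.card : ℝ) ≤
          (2 : ℝ) ^ ((1 - (-x * Real.logb 2 x - (1 - x) * Real.logb 2 (1 - x)) + ε) * n)) ∧
    (∀ (n d : ℕ) (C : Finset (Fin n → Bool)) (f : (Fin n → Bool) → ℕ) (F : ℝ), 0 < d →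
      2 * d ≤ n → (∀ x ∈ C, ∀ y ∈ C, x ≠ y → d ≤ hammingDist x y) →
      (∀ x ∈ C, FewNeighbours C x (f x)) → 1 ≤ F → ∑ x ∈ C, (f x : ℝ) ≤ F * C.card →
      4 * 2 ^ n < (C.card : ℝ) * (∑ i ∈ range (d + 1), n.choose i : ℕ) →
      1 / (4 * (n + 1) * (2 * √((d : ℝ) / n * (1 - d / n))) ^ d) < F) ∧
    (∀ (n d : ℕ) (C : Finset (Fin n → Bool)), 0 < d → 2 * d ≤ n →
      (∀ x ∈ C, ∀ y ∈ C, add2 x y ∈ C) →
      (∀ x ∈ C, ∀ y ∈ C, x ≠ y → d ≤ hammingDist x y) →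
      4 * 2 ^ n < (C.card : ℝ) * (∑ i ∈ range (d + 1), n.choose i : ℕ) →
      1 / (4 * (n + 1) * (2 * √((d : ℝ) / n * (1 - d / n))) ^ d) <
        ({c | IsMinimalWord C c}.ncard : ℝ)) :=
  ⟨fun _ _ _ _ f _ hC hf hF havg h0 h1 hρ => code_bound hC f hf hF havg h0 h1 hρ,
    fun _ _ _ _ hδ hx0 hx1 ha0 ha hε => asym hδ hx0 hx1 ha0 ha hε,
    fun _ _ _ f _ hd hdn hC hf hF havg hgv => above_gv hd hdn hC f hf hF havg hgv,
    fun _ _ _ hd hdn hadd hC hgv => linear_gv hd hdn hadd hC hgv⟩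

end Pool.Agent.Results.MP_0430e4_lc.FewNeighbours
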