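import Pool.Agent.Q102.KB.MainK
import Pool.Agent.Q102.KB.Exact
import Pool.Agent.Results.MP_0430e4_lc.LinearProgrammingLimit

/-!
# MP_0430e4_lc: exponentially many levels of the `k`-point semidefinite bound do not improve the rate
of Delsarte's linear program

We consider the `k`-point semidefinite bounds for `A(n, d)`: the Sherali-Adams relaxation with `k`
levels of the independence number of the graph on `{0,1}^n` in which words at distance `< d` are
adjacent, together with the positive semidefiniteness of the moment matrices of order one (rows and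
columns `∅` and `{x}`) conditioned on any `k - 2` words being in or out of the code. For `k = 2` this
contains Delsarte's linear programming bound and for `k = 3` Schrijver's three point bound. The linear
program has a known exact exponential rate `θ(δ)` at `d = ⌈δ n⌉`, given by a curve with elliptic
parametrisation. We show that the `k`-point bounds have the same rate `θ(δ)`, uniformly for all
`2 ≤ k ≤ 2^(κ n)`: for every `ε > 0` there is a `κ > 0` such that for all large `n` all these bounds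
are `2^((θ(δ) ± ε) n)`. So no subexponential number of points improves the rate of the linear program,
while the bounds are exact for `k > A(n, d)`. The lower bound also holds with arbitrary weights on the
words, hence for constant weight codes: the combination with the inequality of Elias and Bassalygo
does not help either.
-/

open Filter Topology

namespace Pool.Agent.Results.MP_0430e4_lc.KPointBounds

/-- `A(n,d)`: the largest size of a binary code of length `n` with minimum distance at least `d`. -/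
noncomputable def A (n d : ℕ) : ℕ :=
  sSup {k | ∃ C : Finset (Fin n → Bool),
    (∀ x ∈ C, ∀ y ∈ C, x ≠ y → d ≤ hammingDist x y) ∧ C.card = k}

/-- For a function `y` on the finite sets of words, `∑_{F ⊆ E} (-1)^|F| y(D ∪ F ∪ S)`. If `y(S)` is
the probability that a random code contains `S`, this is the probability that the code contains
`D ∪ S` and no word of `E`. -/
def conditioned {n : ℕ} (y : Finset (Fin n → Bool) → ℝ) (D E S : Finset (Fin n → Bool)) : ℝ :=
  ∑ F ∈ E.powerset, (-1) ^ F.card * y (D ∪ F ∪ S)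

/-- The feasible solutions of the `k`-point semidefinite program. -/
structure IsPseudoCode (n d k : ℕ) (y : Finset (Fin n → Bool) → ℝ) : Prop where
  /-- normalisation -/
  one : y ∅ = 1
  /-- the distance condition -/
  dist : ∀ S : Finset (Fin n → Bool), ∀ u ∈ S, ∀ v ∈ S, u ≠ v → hammingDist u v < d → y S = 0
  /-- the Sherali-Adams conditions -/
  nonneg : ∀ D E : Finset (Fin n → Bool), D.card + E.card ≤ k → 0 ≤ conditioned y D E ∅
  /-- the conditioned moment matrices, with rows and columns `∅` and `{x}`, are positive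
  semidefinite -/
  psd : ∀ D E : Finset (Fin n → Bool), D.card + E.card + 2 ≤ k →
    ∀ a : Option (Fin n → Bool) → ℝ,
      0 ≤ ∑ s, ∑ t, a s * a t * conditioned y D E (s.toFinset ∪ t.toFinset)

/-- The `k`-point bound with weights `w` on the words. -/
noncomputable def bound (n d k : ℕ) (w : (Fin n → Bool) → ℝ) : ℝ :=
  sSup {v : ℝ | ∃ y, IsPseudoCode n d k y ∧ v = ∑ x, w x * y {x}}

/-- `η(x) = -x log₂ x`, with `η(0) = 0`. -/
noncomputable def η (x : ℝ) : ℝ := -x * Real.logb 2 x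

/-- The binary entropy function. -/
noncomputable def H (x : ℝ) : ℝ := η x + η (1 - x)

/-- `h(x) = H(1/2 - 1/2 √(1 - x))`. -/
noncomputable def h (x : ℝ) : ℝ := H (1 / 2 - 1 / 2 * √(1 - x))

/-- `α_k(e) = ∑_j sech²((2 j + k) e) / ∑_j sech((2 j + k) e)`, sums over all integers `j`. -/
noncomputable def α (k : ℤ) (e : ℝ) : ℝ :=
  (∑' j : ℤ, 1 / Real.cosh ((2 * j + k) * e) ^ 2) / ∑' j : ℤ, 1 / Real.cosh ((2 * j + k) * e)

/-- `S(e) = h(sech² e) - h(sech² 2e) + h(sech² 3e) - …`. -/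
noncomputable def S (e : ℝ) : ℝ := ∑' n : ℕ, (-1) ^ n * h (1 / Real.cosh ((n + 1) * e) ^ 2)

/-- The curve which describes the exponential rate of Delsarte's linear program. -/
def Curve : Set (ℝ × ℝ) :=
  {p | (∃ e : ℝ, 0 < e ∧ p = ((1 - α 1 e) / 2, S e)) ∨
    (∃ e : ℝ, 0 < e ∧ p = ((1 - α 0 e) / 2, 1 - S e)) ∨ p = (1 / 2 - 1 / Real.pi, 1 / 2)}

open Pool.Agent.TH41.BL Pool.Agent.Y570.KP Pool.Agent.Q102.KB

lemma pc_iff (n d k : ℕ) (y : Finset (Fin n → Bool) → ℝ) :
    IsPseudoCode n d k y ↔ PC n d k y :=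
  ⟨fun h => ⟨h.one, h.dist, h.nonneg, h.psd⟩, fun h => ⟨h.one, h.dist, h.nonneg, h.psd⟩⟩

lemma bound_eq (n d k : ℕ) (w : (Fin n → Bool) → ℝ) : bound n d k w = SW n d k w := by
  unfold bound SW
  congr 1
  ext v
  simp only [Set.mem_ofPred_eq, pc_iff]

lemma A_mem (n d : ℕ) : ∃ C : Finset (Fin n → Bool),
    (∀ x ∈ C, ∀ y ∈ C, x ≠ y → d ≤ hammingDist x y) ∧ C.card = A n d :=
  LinearProgrammingLimit.A_mem n d

lemma point {δ θ : ℝ} (h : (δ, θ) ∈ Curve) : 0 < δ ∧ KE δ (θ * Real.log 2) := by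
  have hδ : 0 < δ := (LinearProgrammingLimit.point h).1
  refine ⟨hδ, ?_⟩
  rcases h with ⟨e, he, hp⟩ | ⟨e, he, hp⟩ | hp
  · obtain ⟨h2, h3⟩ := Prod.mk.inj hp
    subst h2 h3
    have e1 : α 1 e = B2s e / Bs e := LinearProgrammingLimit.α_one e
    have e2 : S e = Ss e := rfl
    rw [e1] at hδ ⊢
    rw [e2]
    exact ke_two' k7_chr he hδ.le
  · obtain ⟨h2, h3⟩ := Prod.mk.inj hp
    subst h2 h3
    have e1 : α 0 e = A2s e / As e := LinearProgrammingLimit.α_zero e
    have e2 : S e = Ss e := rfl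
    rw [e1, e2]
    exact ke_one' k7_chr he
  · obtain ⟨h2, h3⟩ := Prod.mk.inj hp
    subst h2 h3
    exact ke_mid' k7_chr

lemma card_le_A {n d : ℕ} (C : Finset (Fin n → Bool))
    (hC : ∀ x ∈ C, ∀ y ∈ C, x ≠ y → d ≤ hammingDist x y) : C.card ≤ A n d := by
  refine le_csSup ⟨Fintype.card (Fin n → Bool), ?_⟩ ⟨C, hC, rfl⟩
  rintro k ⟨C, -, rfl⟩
  exact Finset.card_le_univ C

lemma A_le {n d k : ℕ} (hk : 1 ≤ k) : (A n d : ℝ) ≤ bound n d k fun _ => 1 := by
  obtain ⟨C, hC, hcard⟩ := A_mem n d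
  rw [bound_eq, ← hcard]
  have h1 := code_le hk C hC (w := fun _ => 1) (fun _ => zero_le_one)
  simpa using h1

lemma bound_anti {n d k : ℕ} (hk : 1 ≤ k) :
    (bound n d (k + 1) fun _ => 1) ≤ bound n d k fun _ => 1 := by
  rw [bound_eq, bound_eq]
  refine csSup_le_csSup (bdd_SW hk fun _ => zero_le_one) ⟨_, _, pc_code ∅ (by simp), rfl⟩ ?_
  rintro v ⟨y, hy, rfl⟩
  exact ⟨y, hy.mono (Nat.le_succ k), rfl⟩

lemma bound_exact {n d k : ℕ} (hk : A n d < k) : (bound n d k fun _ => 1) = A n d := by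
  refine le_antisymm ?_ (A_le (by omega))
  rw [bound_eq]
  refine csSup_le ⟨_, _, pc_code ∅ (by simp), rfl⟩ ?_
  rintro v ⟨y, hy, rfl⟩
  simp only [one_mul]
  exact exactK hy (A n d) hk card_le_A

/-- **The `k`-point semidefinite bounds with `2 ≤ k ≤ 2^(κ n)` have the exponential rate of Delsarte's
linear program.** -/
theorem result :
    (∀ n d k : ℕ, 1 ≤ k → (A n d : ℝ) ≤ (bound n d k fun _ => 1) ∧
      (bound n d (k + 1) fun _ => 1) ≤ bound n d k fun _ => 1) ∧
    (∀ n d k : ℕ, A n d < k → (bound n d k fun _ => 1) = A n d) ∧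
    (∀ δ : ℝ, 0 < δ → δ < 1 / 2 → ∃ θ, (δ, θ) ∈ Curve) ∧
    ∀ δ θ : ℝ, (δ, θ) ∈ Curve → ∀ ε : ℝ, 0 < ε →
      ∃ κ : ℝ, 0 < κ ∧ ∃ n₀ : ℕ, ∀ n : ℕ, n₀ ≤ n → ∀ k : ℕ, 2 ≤ k → (k : ℝ) ≤ 2 ^ (κ * n) →
        |Real.logb 2 (bound n ⌈δ * n⌉₊ k fun _ => 1) / n - θ| ≤ ε ∧
        ∀ w : (Fin n → Bool) → ℝ, (∀ x, 0 ≤ w x) →
          2 ^ ((θ - 1 - ε) * n) * ∑ x, w x ≤ bound n ⌈δ * n⌉₊ k w := by
  refine ⟨fun n d k hk => ⟨A_le hk, bound_anti hk⟩, fun n d k hk => bound_exact hk,
    LinearProgrammingLimit.result.2.1, fun δ θ h ε hε => ?_⟩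
  · have hlog : 0 < Real.log 2 := Real.log_pos (by norm_num)
    obtain ⟨hδ, hK⟩ := point h
    obtain ⟨κ, hκ, n₀, hlow⟩ := lowerK hK (ε * Real.log 2) (by positivity)
    have hlim := LinearProgrammingLimit.result.2.2.1 δ θ h
    obtain ⟨n₁, hn₁⟩ := Filter.eventually_atTop.1 ((hlim.eventually_lt_const
      (show θ < θ + ε by linarith)))
    refine ⟨κ, hκ, n₀ + n₁ + 1, fun n hn k hk hkn => ?_⟩
    have hn1 : (1 : ℝ) ≤ n := by exact_mod_cast (by omega : 1 ≤ n)
    have hn0 : (0 : ℝ) < n := by linarith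
    have hd1 : 1 ≤ ⌈δ * n⌉₊ := Nat.one_le_iff_ne_zero.2 (Nat.ceil_pos.2 (by positivity)).ne'
    have hd2 : (⌈δ * n⌉₊ : ℝ) ≤ δ * n + 1 := (Nat.ceil_lt_add_one (by positivity)).le
    have hk' : (k : ℝ) ≤ Real.exp (κ * n) := by
      refine hkn.trans ?_
      rw [Real.rpow_def_of_pos two_pos]
      refine Real.exp_le_exp.2 ?_
      have h1 : Real.log 2 ≤ 1 := by
        have := Real.log_two_lt_d9
        linarith
      have h2 : 0 < κ * n := by positivity
      nlinarith
    have hw := hlow n (by omega) k (by omega) hk' ⌈δ * n⌉₊ hd1 hd2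
    have hexp : Real.exp (n * (θ * Real.log 2 - ε * Real.log 2)) = 2 ^ ((θ - ε) * n) := by
      rw [Real.rpow_def_of_pos two_pos]
      congr 1
      ring
    have hsplit : (2 : ℝ) ^ ((θ - ε) * n) = 2 ^ n * 2 ^ ((θ - 1 - ε) * n) := by
      rw [← Real.rpow_natCast, ← Real.rpow_add two_pos]
      congr 1
      ring
    have hweight : ∀ w : (Fin n → Bool) → ℝ, (∀ x, 0 ≤ w x) →
        2 ^ ((θ - 1 - ε) * n) * ∑ x, w x ≤ bound n ⌈δ * n⌉₊ k w := by
      intro w hw0
      have h1 := hw w hw0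
      rw [hexp, hsplit, ← bound_eq, mul_assoc] at h1
      exact le_of_mul_le_mul_left h1 (by positivity)
    refine ⟨?_, hweight⟩
    have hb1 : (2 : ℝ) ^ ((θ - ε) * n) ≤ bound n ⌈δ * n⌉₊ k fun _ => 1 := by
      have h1 := hweight (fun _ => 1) fun _ => zero_le_one
      have h2 : ∑ _x : Fin n → Bool, (1 : ℝ) = 2 ^ n := by simp
      rw [h2] at h1
      rw [hsplit]
      linarith
    have hb2 : (bound n ⌈δ * n⌉₊ k fun _ => 1) ≤ LinearProgrammingLimit.LP n ⌈δ * n⌉₊ := by
      rw [bound_eq, LinearProgrammingLimit.LP_eq]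
      exact le_LP hk hd1
    have hpos : 0 < bound n ⌈δ * n⌉₊ k fun _ => 1 := lt_of_lt_of_le (by positivity) hb1
    rw [abs_le]
    constructor
    · have h1 : (θ - ε) * n ≤ Real.logb 2 (bound n ⌈δ * n⌉₊ k fun _ => 1) := by
        rw [Real.le_logb_iff_rpow_le (by norm_num) hpos]
        exact hb1
      have h2 : θ - ε ≤ Real.logb 2 (bound n ⌈δ * n⌉₊ k fun _ => 1) / n := by
        rw [le_div_iff₀ hn0]
        exact h1
      linarith
    · have h1 : Real.logb 2 (bound n ⌈δ * n⌉₊ k fun _ => 1) ≤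
          Real.logb 2 (LinearProgrammingLimit.LP n ⌈δ * n⌉₊) :=
        Real.logb_le_logb_of_le (by norm_num) hpos hb2
      have h2 := hn₁ n (by omega)
      have h3 := div_le_div_of_nonneg_right h1 hn0.le
      linarith

end Pool.Agent.Results.MP_0430e4_lc.KPointBounds
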