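import Mathlib
import Pool.Agent.Q257.PC.Approx

set_option autoImplicit false

/-!
# Binary codes and the coordinatewise operations which preserve them

Words are functions `Fin n → K`, `K = ZMod 2`. An operation (`Op`) has an arity `r` and a function
`F i : K ^ r → K` for every coordinate `i`; its value at the words `z 1, …, z r` has the `i`-th
letter `F i (z 1 i, …, z r i)`. From `Pool/Agent/Q257/PC`: `Closed P C` (the code `C` is closed under
the operations in the set `P`), `Far d C` (minimum distance at least `d`), `Affine`, `Unary` (depends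
on at most one variable), `A n d` and `B n d` (the largest size of a code, of a linear code, of
length `n` and minimum distance at least `d`), their rates `R` and `RL`, `Pol C` (all operations
which preserve `C`), `NonAff P i` (some operation of `P` is not affine in the coordinate `i`) and
`Lin P i` (all are affine there, and one of them depends on two variables).
-/

open Finset Pool.Agent.Q257.PC

namespace Pool.Agent.Results.MP_0430e4_lc.Polymorphisms

open Classical in
/-- the coordinates where some operation of `P` is not affine -/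
noncomputable def nonaff {n : ℕ} (P : Set (Op (Fin n))) : Finset (Fin n) :=
  univ.filter fun i => NonAff P i

open Classical in
/-- the coordinates where all operations of `P` are affine and some depend on two variables -/
noncomputable def lin {n : ℕ} (P : Set (Op (Fin n))) : Finset (Fin n) :=
  univ.filter fun i => Lin P i

open Classical in
/-- the other coordinates: all operations depend on at most one variable -/
noncomputable def unary {n : ℕ} (P : Set (Op (Fin n))) : Finset (Fin n) :=
  univ.filter fun i => ¬ NonAff P i ∧ ¬ Lin P i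

open Classical in
/-- the coordinates where `F` is the sum of the arguments in `I`, up to a constant -/
noncomputable def agree {n r : ℕ} (F : Fin n → (Fin r → K) → K) (I : Finset (Fin r)) :
    Finset (Fin n) :=
  univ.filter fun i => ∃ b, ∀ z, F i z = b + ∑ k ∈ I, z k

open Classical in
/-- the tuples of words of `C` which `F` maps into `C` -/
noncomputable def returns {n r : ℕ} (F : Fin n → (Fin r → K) → K) (C : Finset (Fin n → K)) :
    Finset (Fin r → Fin n → K) :=
  (Fintype.piFinset fun _ => C).filter fun z => (fun i => F i fun k => z k i) ∈ C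

/-- (1) The bound. (2) It is attained for every partition of the coordinates. (3) One function in
all coordinates. (4) The two kinds of nearly optimal codes. (5) Operations which map at least an
exponentially small part of the tuples of words into a nearly optimal code. -/
theorem result :
    (∀ (n d : ℕ) (P : Set (Op (Fin n))) (C : Finset (Fin n → K)), 1 ≤ d → Closed P C → Far d C →
      C.card ≤ 2 ^ ((nonaff P).card / d) * B (lin P).card d * A (unary P).card d) ∧
    (∀ (n d : ℕ) (N L : Finset (Fin n)), 1 ≤ d → Disjoint N L →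
      ∃ F : Op (Fin n), nonaff {F} = N ∧ lin {F} = L ∧
        ∃ C : Finset (Fin n → K), Closed {F} C ∧ Far d C ∧
          C.card = 2 ^ (N.card / d) * B L.card d * A (n - N.card - L.card) d) ∧
    (∀ (n d r : ℕ) (f : (Fin r → K) → K), 1 ≤ d → d ≤ n → ¬ Affine f →
      (∀ C : Finset (Fin n → K), Closed {⟨r, fun _ => f⟩} C → Far d C → C.card ≤ 2 ^ (n / d)) ∧
      ∃ C : Finset (Fin n → K), Closed {⟨r, fun _ => f⟩} C ∧ Far d C ∧ C.card = 2 ^ (n / d)) ∧
    (∀ δ η : ℝ, 0 < δ → δ < 1 / 2 → 0 < η → ∃ ε : ℝ, 0 < ε ∧ ∃ n0 : ℕ, ∀ n ≥ n0,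
      ∀ C : Finset (Fin n → K), Far ⌈δ * n⌉₊ C → (R δ - ε) * n ≤ Real.logb 2 C.card →
      ((1 - η) * n ≤ (lin (Pol C)).card ∧
        (∀ F ∈ Pol C, ∃ I : Finset (Fin F.1), (1 - η) * n ≤ (agree F.2 I).card) ∧
        (∃ V : Submodule K (Fin n → K), (∀ w ∈ V, w ≠ 0 → δ * n ≤ hammingNorm w) ∧
          ∀ a ∈ C, ∀ b ∈ C, ∃ w ∈ V, ∀ i ∈ lin (Pol C), a i + b i = w i) ∧
        R δ - η ≤ RL δ) ∨
      ((1 - η) * n ≤ (unary (Pol C)).card ∧
        ∀ F ∈ Pol C, ∃ I : Finset (Fin F.1), I.card ≤ 1 ∧ (1 - η) * n ≤ (agree F.2 I).card)) ∧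
    (∀ δ η : ℝ, 0 < δ → δ < 1 / 2 → 0 < η → ∀ r : ℕ, ∃ κ : ℝ, 0 < κ ∧ ∃ n0 : ℕ, ∀ n ≥ n0,
      ∀ C : Finset (Fin n → K), Far ⌈δ * n⌉₊ C → (R δ - κ) * n ≤ Real.logb 2 C.card →
      ∀ F : Fin n → (Fin r → K) → K,
        (2 : ℝ) ^ (-(κ * n)) * (C.card : ℝ) ^ r ≤ (returns F C).card →
        ∃ I : Finset (Fin r), (1 - η) * n ≤ (agree F I).card) := by
  classical
  refine ⟨?_, ?_, ?_, ?_, ?_⟩
  · intro n d P C hd hC hfar
    have h := bound hC hd hfar
    unfold nonaff lin unary
    exact h
  · intro n d N L hd hNL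
    refine ⟨F0 N L, ?_, ?_, ?_⟩
    · ext i
      unfold nonaff
      rw [Finset.mem_filter]
      exact ⟨fun h => (nonaff_F0 i).1 h.2, fun h => ⟨Finset.mem_univ _, (nonaff_F0 i).2 h⟩⟩
    · ext i
      unfold lin
      rw [Finset.mem_filter]
      exact ⟨fun h => (lin_F0 hNL i).1 h.2, fun h => ⟨Finset.mem_univ _, (lin_F0 hNL i).2 h⟩⟩
    · obtain ⟨C, h1, h2, h3⟩ := sharp hd N L hNL
      rw [Fintype.card_fin] at h3
      exact ⟨C, h1, h2, h3⟩
  · intro n d r f hd hdn hf
    exact single hd hdn hf
  · intro δ η hδ hδ1 hη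
    obtain ⟨ε1, hε1, n1, h⟩ := dichotomy hδ hδ1 hη
    obtain ⟨ε2, hε2, n2, h'⟩ := sum_form hδ hδ1 hη
    refine ⟨min ε1 ε2, lt_min hε1 hε2, max n1 n2, ?_⟩
    intro n hn C hC hlog
    have hn1 : n1 ≤ n := (le_max_left _ _).trans hn
    have hn2 : n2 ≤ n := (le_max_right _ _).trans hn
    have hlog1 : (R δ - ε1) * n ≤ Real.logb 2 C.card := by
      refine le_trans (mul_le_mul_of_nonneg_right ?_ (Nat.cast_nonneg n)) hlog
      linarith [min_le_left ε1 ε2]
    have hlog2 : (R δ - ε2) * n ≤ Real.logb 2 C.card := by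
      refine le_trans (mul_le_mul_of_nonneg_right ?_ (Nat.cast_nonneg n)) hlog
      linarith [min_le_right ε1 ε2]
    rcases h n hn1 C hC hlog1 with ⟨h1, ⟨V, hV, hab⟩, h3⟩ | ⟨h1, h2⟩
    · left
      refine ⟨?_, ?_, ⟨V, hV, ?_⟩, h3⟩
      · unfold lin
        exact h1
      · intro F hF
        obtain ⟨I, hI⟩ := h' n hn2 C hC hlog2 F hF
        refine ⟨I, ?_⟩
        unfold agree
        exact hI
      · intro a ha b hb
        obtain ⟨w, hw, hi⟩ := hab a ha b hb
        refine ⟨w, hw, fun i hil => hi i ?_⟩
        unfold lin at hil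
        exact (Finset.mem_filter.1 hil).2
    · right
      refine ⟨?_, ?_⟩
      · unfold unary
        exact h1
      · intro F hF
        rcases h2 F hF with ⟨k, hk⟩ | hk
        · refine ⟨{k}, le_of_eq (Finset.card_singleton k), hk.trans ?_⟩
          unfold agree
          refine Nat.cast_le.2 (Finset.card_le_card ?_)
          intro i hi
          rw [Finset.mem_filter] at hi ⊢
          obtain ⟨b, hb⟩ := hi.2
          refine ⟨Finset.mem_univ _, b, fun z => ?_⟩
          rw [hb z, Finset.sum_singleton, add_comm]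
        · refine ⟨∅, by simp, hk.trans ?_⟩
          unfold agree
          refine Nat.cast_le.2 (Finset.card_le_card ?_)
          intro i hi
          rw [Finset.mem_filter] at hi ⊢
          obtain ⟨b, hb⟩ := hi.2
          refine ⟨Finset.mem_univ _, b, fun z => ?_⟩
          rw [hb z, Finset.sum_empty, add_zero]
  · intro δ η hδ hδ1 hη r
    obtain ⟨κ, hκ, n0, h⟩ := approx hδ hδ1 hη r
    refine ⟨κ, hκ, n0, ?_⟩
    intro n hn C hC hlog F hF
    have h2 := h n hn C hC hlog F
    unfold returns at hF
    unfold agree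
    unfold tup at h2
    exact h2 hF

end Pool.Agent.Results.MP_0430e4_lc.Polymorphisms
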