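import Mathlib
import Pool.Agent.Q123.AC.Top

/-!
# Abelian codes whose order has only primes from a fixed set are asymptotically bad

Let `F` be a finite field of characteristic `p` (for the problem: `F = F_2`), `P` a finite set of
primes and `ε > 0`. Let `G` be a finite group with a normal `p`-subgroup `H` such that `G / H` is
abelian and all primes dividing `|G / H|` lie in `P`. If `|G / H|` is large in terms of `F`, `P`
and `ε` then every linear code `C ⊆ F ^ G` which is invariant under the translations of `G` and
whose dimension is at least `ε |G|` contains a nonzero word of weight at most `ε |G|`.

For `H = 1` these are the abelian codes (the ideals of the group algebra `F[G]`, `G` abelian) of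
lengths with all primes in `P`; there is no assumption on the exponents and on the ranks, and `p`
may divide the order. So there is no asymptotically good sequence of such codes: a sequence of
asymptotically good abelian codes needs lengths with unbounded prime divisors. For cyclic codes
this is a theorem of Berman and Castagnoli. Apart from abelian groups the theorem covers all
`p`-groups with a large commutator factor group.

Sketch of the proof. The dimension of the subcode of the words that are constant on the cosets of
a normal `p`-subgroup drops at most by the order of that subgroup. So one may pass to the
quotients by normal `p`-subgroups. The remaining abelian group has one of four properties.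
* Its Sylow `p`-subgroup has a large exponent. Then, after a quotient, it is `Z / p^b × Y` with
  `|Y|` prime to `p`. Over an extension of `F` some component with respect to the characters of
  `Y` is killed by a power of the augmentation ideal of `Z / p^b` with a large exponent only. It
  contains all functions of smaller degree; one of them is the indicator function of a subgroup.
* For some prime `ℓ ≠ p` the `ℓ`-part has a large exponent. Then there is a character `χ` of the
  code such that the order of its `ℓ`-part is large, and one finds a power `Q` of `|F|` such
  that `χ^(Q^j) = χ η^j` for a character `η` whose order is a given power of `ℓ`; the bound for
  the valuations of the numbers `|F|^i - 1` uses that only finitely many primes occur. All these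
  characters lie in the code over the larger field. Their sum is supported on the kernel of `η`.
* The exponent is bounded and the rank of the `ℓ`-part is large for some `ℓ ≠ p`. Then many
  characters of the code (in the extension) form a cube `χ ∏ η_j`, `η_j ∈ {α_j, β_j}`, with `α_j`
  and `β_j` from a family of independent characters; the word `χ ∏ (α_j - β_j)` is light.
* The order of the group prime to `p` is bounded, the exponent is bounded and the rank of the Sylow
  `p`-subgroup is large. Then the quotients by the intersections of the kernels of the coordinates
  give many codes on a group of bounded order; each of them contains a word with a nonzero mixed
  difference, and these words are the same for a whole box of the choices of the coordinates. The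
  alternating sum over the vertices of the box is light.
-/

namespace Pool.Agent.Results.MP_0430e4_lc.SmoothAbelian

/-- Translation invariant codes on groups which are, modulo a normal `p`-subgroup, abelian of an
order with prime divisors from a fixed finite set, are asymptotically bad. -/
theorem result (F : Type) [Field F] [Finite F] (P : Finset ℕ) (ε : ℝ) (hε : 0 < ε) :
    ∃ N : ℕ, ∀ (G : Type) [Group G] [Finite G] (H : Subgroup G) [H.Normal],
      IsPGroup (ringChar F) H →
      (∀ a b : G, a * b * a⁻¹ * b⁻¹ ∈ H) →
      (∀ r : ℕ, r.Prime → r ∣ H.index → r ∈ P) →
      N ≤ H.index →
      ∀ C : Submodule F (G → F), (∀ g : G, ∀ f ∈ C, (fun x => f (g * x)) ∈ C) →
        ε * Nat.card G ≤ Module.finrank F C →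
        ∃ f ∈ C, f ≠ 0 ∧ (Nat.card {x // f x ≠ 0} : ℝ) ≤ ε * Nat.card G :=
  Q123.AC.mainGS F P ε ε hε hε

end Pool.Agent.Results.MP_0430e4_lc.SmoothAbelian
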